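import Mathlib

namespace Pool.Agent.Results.MP_356e41_ag.Quasi

open MvPolynomial Finset

/-- `Λ` is the polynomial ring in the power sums `N_1, N_2, …` (the variable `l` is `N_{l+1}`);
`phi n` is the map `Λ → Λ_n` -/
noncomputable def phi (n : ℕ) (f : MvPolynomial ℕ ℝ) : MvPolynomial (Fin n) ℝ :=
  aeval (fun l => psum (Fin n) ℝ (l + 1)) f

/-- `V_n(I)` for the ideal `I` generated by the finite set `F` -/
def V (n : ℕ) (F : Finset (MvPolynomial ℕ ℝ)) : Set (Fin n → ℝ) :=
  {x | ∀ f ∈ F, eval x (phi n f) = 0}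

/-- the `S_n`-invariants of `H^0(S, ℚ)`, the space of locally constant rational functions on `S` -/
def inv0 {n : ℕ} (S : Set (Fin n → ℝ)) : Submodule ℚ (LocallyConstant S ℚ) where
  carrier := {g | ∀ (σ : Equiv.Perm (Fin n)) (x y : S), y.1 = x.1 ∘ σ → g y = g x}
  add_mem' := fun ha hb σ x y h => by
    simp only [LocallyConstant.add_apply, ha σ x y h, hb σ x y h]
  zero_mem' := fun _ _ _ _ => rfl
  smul_mem' := fun c _ ha σ x y h => by
    simp only [LocallyConstant.smul_apply, ha σ x y h]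

/-- `m_{0,(n)}(S)`: the multiplicity of the trivial Specht module in `H^0(S, ℚ)` -/
noncomputable def mult0 {n : ℕ} (S : Set (Fin n → ℝ)) : ℕ := Module.finrank ℚ (inv0 S)

noncomputable def F0 : Finset (MvPolynomial ℕ ℝ) := by
  classical exact {X 5 - 2 * X 3 + X 1, X 0}

lemma mem_V (n : ℕ) (x : Fin n → ℝ) :
    x ∈ V n F0 ↔ (∀ i, x i = 1 ∨ x i = -1 ∨ x i = 0) ∧ ∑ i, x i = 0 := by
  classical
  simp only [V, F0, Set.mem_ofPred_eq, Finset.mem_insert, Finset.mem_singleton, forall_eq_or_imp,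
    forall_eq, phi, map_add, map_sub, map_mul, aeval_X, psum, map_sum, map_pow, eval_X, map_ofNat,
    zero_add, pow_one]
  have e : ∑ i, x i ^ (5 + 1) - 2 * ∑ i, x i ^ (3 + 1) + ∑ i, x i ^ (1 + 1)
      = ∑ i, (x i * (x i - 1) * (x i + 1)) ^ 2 := by
    rw [Finset.mul_sum, ← Finset.sum_sub_distrib, ← Finset.sum_add_distrib]
    apply Finset.sum_congr rfl
    intro i _
    ring
  rw [e, Finset.sum_eq_zero_iff_of_nonneg (fun i _ => sq_nonneg _)]
  apply and_congr_left'
  constructor
  · intro h i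
    have := h i (Finset.mem_univ i)
    rw [pow_eq_zero_iff two_ne_zero, mul_eq_zero, mul_eq_zero] at this
    rcases this with (h | h) | h
    · right; right; exact h
    · left; linarith
    · right; left; linarith
  · intro h i _
    rcases h i with h | h | h <;> simp [h]

noncomputable def cnt {n : ℕ} (x : Fin n → ℝ) (c : ℝ) : ℕ := by
  classical exact (Finset.univ.filter fun i => x i = c).card

lemma cnt_facts {n : ℕ} {x : Fin n → ℝ} (hx : x ∈ V n F0) :
    cnt x (-1) = cnt x 1 ∧ cnt x 0 + 2 * cnt x 1 = n := by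
  classical
  obtain ⟨h1, h2⟩ := (mem_V n x).mp hx
  have c : ∀ c : ℝ, (cnt x c : ℝ) = ∑ i, if x i = c then 1 else 0 := by
    intro c; simp [cnt]
  have a : (cnt x 1 : ℝ) - cnt x (-1) = ∑ i, x i := by
    rw [c, c, ← Finset.sum_sub_distrib]
    apply Finset.sum_congr rfl
    intro i _
    rcases h1 i with h | h | h <;> simp [h] <;> norm_num
  have b : (cnt x 1 : ℝ) + cnt x (-1) + cnt x 0 = ∑ _i : Fin n, (1 : ℝ) := by
    rw [c, c, c, ← Finset.sum_add_distrib, ← Finset.sum_add_distrib]
    apply Finset.sum_congr rfl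
    intro i _
    rcases h1 i with h | h | h <;> simp [h] <;> norm_num
  simp only [Finset.sum_const, Finset.card_univ, Fintype.card_fin, nsmul_eq_mul, mul_one] at b
  constructor
  · have : (cnt x (-1) : ℝ) = cnt x 1 := by linarith
    exact_mod_cast this
  · have : (cnt x 0 : ℝ) + 2 * cnt x 1 = n := by linarith
    exact_mod_cast this

lemma orbit {n : ℕ} {x y : Fin n → ℝ} (hx : x ∈ V n F0) (hy : y ∈ V n F0)
    (h : cnt x 1 = cnt y 1) : ∃ σ : Equiv.Perm (Fin n), y = x ∘ σ := by
  classical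
  have hc : ∀ c, cnt y c = cnt x c := by
    intro c
    have a := cnt_facts hx
    have b := cnt_facts hy
    by_cases h1 : c = 1
    · rw [h1, h]
    by_cases h2 : c = -1
    · rw [h2]; omega
    by_cases h3 : c = 0
    · rw [h3]; omega
    have z : ∀ {z : Fin n → ℝ}, z ∈ V n F0 → cnt z c = 0 := by
      intro z hz
      simp only [cnt, Finset.card_eq_zero, Finset.filter_eq_empty_iff]
      intro i _ e
      rcases ((mem_V n z).mp hz).1 i with h | h | h
      · exact h1 (e ▸ h)
      · exact h2 (e ▸ h)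
      · exact h3 (e ▸ h)
    rw [z hx, z hy]
  have e : ∀ c, {i // y i = c} ≃ {i // x i = c} := fun c => Fintype.equivOfCardEq (by
    rw [Fintype.card_subtype, Fintype.card_subtype]; exact hc c)
  refine ⟨Equiv.ofFiberEquiv e, ?_⟩
  funext i
  exact (Equiv.ofFiberEquiv_map e i).symm

lemma cnt_perm {n : ℕ} (x : Fin n → ℝ) (σ : Equiv.Perm (Fin n)) (c : ℝ) :
    cnt (x ∘ σ) c = cnt x c := by
  classical
  unfold cnt
  apply Finset.card_equiv σ
  simp

lemma exists_cnt (n k : ℕ) (h : 2 * k ≤ n) : ∃ x ∈ V n F0, cnt x 1 = k := by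
  classical
  obtain ⟨A, -, hA⟩ := Finset.exists_subset_card_eq (s := (Finset.univ : Finset (Fin n)))
    (n := k) (by simp; omega)
  obtain ⟨B, hBA, hB⟩ := Finset.exists_subset_card_eq (s := Aᶜ) (n := k)
    (by rw [Finset.card_compl, hA]; simp; omega)
  have hd : ∀ i, i ∈ B → i ∉ A := fun i hi => by simpa using hBA hi
  refine ⟨fun i => (if i ∈ A then 1 else 0) - (if i ∈ B then 1 else 0), ?_, ?_⟩
  · rw [mem_V]
    constructor
    · intro i
      by_cases h1 : i ∈ A
      · have : i ∉ B := fun h => hd i h h1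
        simp [h1, this]
      · by_cases h2 : i ∈ B <;> simp [h1, h2]
    · simp [Finset.sum_sub_distrib, hA, hB]
  · unfold cnt
    rw [← hA]
    congr 1
    ext i
    by_cases h1 : i ∈ A
    · have : i ∉ B := fun h => hd i h h1
      simp [h1, this]
    · by_cases h2 : i ∈ B
      · simp [h1, h2]; norm_num
      · simp [h1, h2]

instance (n : ℕ) : Finite (V n F0) := by
  classical
  apply Set.Finite.to_subtype
  apply (Fintype.piFinset fun _ : Fin n => ({1, -1, 0} : Finset ℝ)).finite_toSet.subset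
  intro x hx
  simpa using ((mem_V n x).mp hx).1

noncomputable def kk {n : ℕ} (x : V n F0) : Fin (n / 2 + 1) :=
  ⟨cnt x.1 1, by have := cnt_facts x.2; omega⟩

noncomputable def Phi (n : ℕ) : (Fin (n / 2 + 1) → ℚ) →ₗ[ℚ] inv0 (V n F0) where
  toFun g := ⟨⟨fun x => g (kk x), IsLocallyConstant.of_discrete _⟩, fun σ x y h => by
    show g (kk y) = g (kk x)
    congr 1
    apply Fin.ext
    show cnt y.1 1 = cnt x.1 1
    rw [h, cnt_perm]⟩
  map_add' _ _ := rfl
  map_smul' _ _ := rfl

lemma mult_eq (n : ℕ) : mult0 (V n F0) = n / 2 + 1 := by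
  have hs : ∀ k : Fin (n / 2 + 1), ∃ x : V n F0, kk x = k := by
    intro k
    obtain ⟨x, hx, h⟩ := exists_cnt n k (by have := k.2; omega)
    exact ⟨⟨x, hx⟩, Fin.ext h⟩
  have hb : Function.Bijective (Phi n) := by
    constructor
    · intro g g' h
      funext k
      obtain ⟨x, rfl⟩ := hs k
      exact congrArg (fun u : inv0 (V n F0) => u.1 x) h
    · intro u
      choose r hr using hs
      refine ⟨fun k => u.1 (r k), ?_⟩
      apply Subtype.ext
      ext x
      show u.1 (r (kk x)) = u.1 x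
      obtain ⟨σ, hσ⟩ := orbit x.2 (r (kk x)).2 (congrArg Fin.val (hr (kk x))).symm
      exact u.2 σ x _ hσ
  rw [mult0, ← (LinearEquiv.ofBijective _ hb).finrank_eq]
  simp

theorem result : ∃ F : Finset (MvPolynomial ℕ ℝ), (∀ n, mult0 (V n F) = n / 2 + 1) ∧
    ¬ ∃ (P : Polynomial ℚ) (N : ℕ), ∀ n ≥ N, (mult0 (V n F) : ℚ) = P.eval (n : ℚ) := by
  refine ⟨F0, mult_eq, ?_⟩
  rintro ⟨P, N, h⟩
  simp only [mult_eq] at h
  have hD : P.comp (Polynomial.X + 1) - P = 0 := by
    apply Polynomial.eq_zero_of_infinite_isRoot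
    apply Set.infinite_of_injective_forall_mem (f := fun k : ℕ => ((2 * (k + N) : ℕ) : ℚ))
    · intro a b hab
      have : 2 * (a + N) = 2 * (b + N) := Nat.cast_injective (R := ℚ) hab
      omega
    · intro k
      have a := h (2 * (k + N)) (by omega)
      have b := h (2 * (k + N) + 1) (by omega)
      have e : (2 * (k + N) + 1) / 2 = 2 * (k + N) / 2 := by omega
      rw [e, a] at b
      simp only [Set.mem_ofPred_eq, Polynomial.IsRoot, Polynomial.eval_sub, Polynomial.eval_comp,
        Polynomial.eval_add, Polynomial.eval_X, Polynomial.eval_one]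
      rw [b]; push_cast; ring
  have a := h (2 * N + 1) (by omega)
  have b := h (2 * N + 2) (by omega)
  have c := congrArg (Polynomial.eval ((2 * N + 1 : ℕ) : ℚ)) hD
  simp only [Polynomial.eval_sub, Polynomial.eval_comp, Polynomial.eval_add, Polynomial.eval_X,
    Polynomial.eval_one, Polynomial.eval_zero] at c
  have e1 : (2 * N + 1) / 2 = N := by omega
  have e2 : (2 * N + 2) / 2 = N + 1 := by omega
  have e3 : ((2 * N + 1 : ℕ) : ℚ) + 1 = ((2 * N + 2 : ℕ) : ℚ) := by push_cast; ring
  rw [e3, ← a, ← b, e1, e2] at c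
  push_cast at c
  linarith

end Pool.Agent.Results.MP_356e41_ag.Quasi
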